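import Pool.Agent.helper19.HF.SpecA

/-!
# Project HF (MP_bf63dc_nt), row FCM: the mass of the functions
-/

set_option autoImplicit false

namespace Pool.Agent.HF

open Finset

theorem FCM_split {b R : ℕ} (hR : 1 ≤ R) (β : Fin b) (F : Fin R → ℝ) : Av (fun w : Wb b R => F (w β)) = (∑ u, F u) / R := by
  classical
  have : Nonempty (Fin R) := ⟨⟨0, hR⟩⟩
  let e := Equiv.funSplitAt β (Fin R)
  have h1 : ∑ w : Wb b R, F (w β) = ∑ x : Fin R × ({j // j ≠ β} → Fin R), F x.1 := by
    refine Fintype.sum_equiv e _ _ fun w => ?_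
    rfl
  have h2 : ∑ x : Fin R × ({j // j ≠ β} → Fin R), F x.1 = (Fintype.card ({j // j ≠ β} → Fin R) : ℝ) * ∑ u, F u := by
    rw [Fintype.sum_prod_type, Finset.mul_sum]
    refine Finset.sum_congr rfl fun u _ => ?_
    show ∑ _y : ({j // j ≠ β} → Fin R), F u = _
    rw [Finset.sum_const, Finset.card_univ, nsmul_eq_mul]
  have h3 : (Fintype.card (Wb b R) : ℝ) = R * Fintype.card ({j // j ≠ β} → Fin R) := by
    have h4 : Fintype.card (Wb b R) = Fintype.card (Fin R × ({j // j ≠ β} → Fin R)) := Fintype.card_congr e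
    rw [h4, Fintype.card_prod, Fintype.card_fin]
    push_cast
    rfl
  unfold Av
  rw [h1, h2, h3]
  have hc : (Fintype.card ({j // j ≠ β} → Fin R) : ℝ) ≠ 0 := by
    have : 0 < Fintype.card ({j // j ≠ β} → Fin R) := Fintype.card_pos
    exact_mod_cast this.ne'
  have hR0 : (R : ℝ) ≠ 0 := by
    have : 0 < R := hR
    exact_mod_cast this.ne'
  field_simp

theorem FCM_sum {Ω ι : Type} [Fintype Ω] (s : Finset ι) (f : ι → Ω → ℝ) : Av (fun ω => ∑ i ∈ s, f i ω) = ∑ i ∈ s, Av (f i) := by
  unfold Av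
  rw [Finset.sum_comm, Finset.sum_div]

theorem FCM_div {Ω : Type} [Fintype Ω] (f : Ω → ℝ) (c : ℝ) : Av (fun ω => f ω / c) = Av f / c := by
  unfold Av
  rw [← Finset.sum_div]
  ring

theorem FCM (h1 : CND_stmt) (h2 : BES_stmt) : FCM_stmt := by
  classical
  intro n b R r X g hn hR
  have : Nonempty (Fin R) := ⟨⟨0, hR⟩⟩
  have hn0 : (0 : ℝ) < n := by exact_mod_cast hn
  have hy : ∀ h β x, 0 ≤ y1 X g h β x ∧ y1 X g h β x ≤ 1 := by
    intro h β x
    refine h1.1 _ _ _ _ (fun ω => ?_) x
    unfold lb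
    split_ifs <;> simp
  -- one block
  have key : ∀ β : Fin b, (∑ h, Av (lb X h β)) / n - (Real.sqrt (2 ^ (b * r) / n) + 2 * r / n) ≤
      Av (fun ω => (∑ u, ab X g (inf X g ω) β u) / R) := by
    intro β
    have h3 := h2 n (Wb b R) (Fin r → Fin b → Bool) (fun ω => fun l => X ω (g l)) (univ.image g)
      (fun h ω k w => y1 X g h β (fun l => (ω (g l), k l), w β))
      (fun h ω k w => by
        rw [abs_of_nonneg (hy h β _).1]
        exact (hy h β _).2)
      (fun h k w ω ω' hω => by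
        have e : (fun l => (ω (g l), k l)) = fun l => (ω' (g l), k l) := by
          funext l
          rw [hω (g l) (Finset.mem_image_of_mem g (Finset.mem_univ l))]
        simp only [e])
    have e1 : ∀ h : Fin n, Av (fun ω : Om n b R => y1 X g h β ((fun l => (ω (g l), X ω (g l))), ω h β)) = Av (lb X h β) := by
      intro h
      have h4 := h1.2.1 (Om n b R) (Cl r b R × Fin R) (fun ω => (inf X g ω, ω h β)) (lb X h β) (fun _ => 1)
      simp only [mul_one] at h4
      exact h4.symm
    have e2 : ∀ h : Fin n, Av (fun ω : Om n b R => Av (fun w : Wb b R => y1 X g h β ((fun l => (ω (g l), X ω (g l))), w β))) =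
        Av (fun ω => (∑ u, y1 X g h β (inf X g ω, u)) / R) := by
      intro h
      congr 1
      funext ω
      exact FCM_split hR β (fun u => y1 X g h β (inf X g ω, u))
    have e3 : Av (fun ω => (∑ u, ab X g (inf X g ω) β u) / R) = (∑ h, Av (fun ω => (∑ u, y1 X g h β (inf X g ω, u)) / R)) / n := by
      rw [← FCM_sum, ← FCM_div]
      congr 1
      funext ω
      unfold ab
      rw [← Finset.sum_div, Finset.sum_comm, ← Finset.sum_div]
      ring
    have h5 : ∑ h, Av (lb X h β) - ∑ h, Av (fun ω => (∑ u, y1 X g h β (inf X g ω, u)) / R) ≤ Real.sqrt (n * Fintype.card (Fin r → Fin b → Bool)) + 2 * #(univ.image g) := by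
      refine le_trans ?_ h3
      rw [← Finset.sum_sub_distrib]
      refine Finset.sum_le_sum fun h _ => ?_
      refine le_trans (le_of_eq ?_) (le_abs_self _)
      rw [e1, e2]
    have h6 : (#(univ.image g) : ℝ) ≤ r := by
      have : #(univ.image g) ≤ #(univ : Finset (Fin r)) := Finset.card_image_le
      rw [Finset.card_univ, Fintype.card_fin] at this
      exact_mod_cast this
    have h7 : (Fintype.card (Fin r → Fin b → Bool) : ℝ) = 2 ^ (b * r) := by
      rw [Fintype.card_fun, Fintype.card_fun, Fintype.card_bool, Fintype.card_fin, Fintype.card_fin]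
      push_cast
      rw [← pow_mul]
    have h8 : Real.sqrt (n * 2 ^ (b * r)) / n = Real.sqrt (2 ^ (b * r) / n) := by
      have e : (2 ^ (b * r) / n : ℝ) = (n * 2 ^ (b * r)) / n ^ 2 := by field_simp
      rw [e, Real.sqrt_div (by positivity), Real.sqrt_sq hn0.le]
    rw [e3, ← h8]
    rw [h7] at h5
    have h9 : (∑ h, Av (lb X h β)) / n - (Real.sqrt (n * 2 ^ (b * r)) / n + 2 * r / n) - (∑ h, Av (fun ω => (∑ u, y1 X g h β (inf X g ω, u)) / R)) / n =
        ((∑ h, Av (lb X h β) - ∑ h, Av (fun ω => (∑ u, y1 X g h β (inf X g ω, u)) / R)) - (Real.sqrt (n * 2 ^ (b * r)) + 2 * r)) / n := by ring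
    have h10 : ((∑ h, Av (lb X h β) - ∑ h, Av (fun ω => (∑ u, y1 X g h β (inf X g ω, u)) / R)) - (Real.sqrt (n * 2 ^ (b * r)) + 2 * r)) / n ≤ 0 :=
      div_nonpos_of_nonpos_of_nonneg (by linarith) hn0.le
    linarith
  have h3 := Finset.sum_le_sum (s := (univ : Finset (Fin b))) fun β _ => key β
  rw [← FCM_sum, Finset.sum_sub_distrib, Finset.sum_const, Finset.card_univ, Fintype.card_fin, nsmul_eq_mul, ← Finset.sum_div, Finset.sum_comm] at h3
  exact h3

end Pool.Agent.HF
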